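import Pool.Agent.Helper50.BP.St

/-! Project BP, module TG: the target group (helper33; adapted from Helper24/AY/M_TGQ.lean). -/

set_option autoImplicit false

namespace Pool.Agent.Helper33.BP

open Pool.Agent.Helper50.BP Pool.Agent.Helper43.GD
open Matrix (SpecialLinearGroup)

section SL

variable {K : Type} [Field K]

/-- upper transvection -/
def EE (c : K) : SpecialLinearGroup (Fin 2) K := ⟨!![1, c; 0, 1], by simp [Matrix.det_fin_two]⟩

/-- lower transvection -/
def FF (c : K) : SpecialLinearGroup (Fin 2) K := ⟨!![1, 0; c, 1], by simp [Matrix.det_fin_two]⟩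

/-- the Weyl element -/
def WW (K : Type) [Field K] : SpecialLinearGroup (Fin 2) K :=
  ⟨!![0, 1; -1, 0], by rw [Matrix.det_fin_two]; simp⟩

private lemma EE_add (a b : K) : EE (a + b) = EE a * EE b := by
  apply Subtype.ext
  ext i j
  fin_cases i <;> fin_cases j <;> simp [EE, Matrix.mul_apply, Fin.sum_univ_two, add_comm]

private lemma EE_zero : EE (0 : K) = 1 := by
  apply Subtype.ext
  ext i j
  fin_cases i <;> fin_cases j <;> simp [EE]

private lemma EE_neg (a : K) : EE (-a) = (EE a)⁻¹ := by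
  rw [eq_inv_iff_mul_eq_one, ← EE_add, neg_add_cancel, EE_zero]

private lemma br1 : EE (1 : K) * FF (-1) * EE 1 = WW K := by
  apply Subtype.ext
  ext i j
  fin_cases i <;> fin_cases j <;> simp [EE, FF, WW, Matrix.mul_apply, Fin.sum_univ_two]

private lemma br2 : FF (-1 : K) * EE 1 * FF (-1) = WW K := by
  apply Subtype.ext
  ext i j
  fin_cases i <;> fin_cases j <;> simp [EE, FF, WW, Matrix.mul_apply, Fin.sum_univ_two]

private lemma WW2 (g : SpecialLinearGroup (Fin 2) K) : (WW K * WW K) * g = g * (WW K * WW K) := by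
  apply Subtype.ext
  ext i j
  fin_cases i <;> fin_cases j <;> simp [WW, Matrix.mul_apply, Fin.sum_univ_two]

/-- generation of `SL(2,K)` -/
private lemma gen (P : Subgroup (SpecialLinearGroup (Fin 2) K)) (hE : ∀ c : K, EE c ∈ P)
    (hW : WW K ∈ P) : P = ⊤ := by
  rw [Subgroup.eq_top_iff']
  have key : ∀ g : SpecialLinearGroup (Fin 2) K, g.1 1 0 ≠ 0 → g ∈ P := by
    intro g hg
    have hdet := g.2
    rw [Matrix.det_fin_two] at hdet
    have hF : WW K * EE (-(g.1 1 0)) * (WW K)⁻¹ ∈ P :=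
      P.mul_mem (P.mul_mem hW (hE _)) (P.inv_mem hW)
    have hF2 : WW K * EE (-(g.1 1 0)) * (WW K)⁻¹ = FF (g.1 1 0) := by
      rw [mul_inv_eq_iff_eq_mul]
      apply Subtype.ext
      ext i j
      fin_cases i <;> fin_cases j <;>
        simp [EE, FF, WW, Matrix.mul_apply, Fin.sum_univ_two]
    have : g = EE ((g.1 0 0 - 1) * (g.1 1 0)⁻¹) * (WW K * EE (-(g.1 1 0)) * (WW K)⁻¹) *
        EE ((g.1 1 1 - 1) * (g.1 1 0)⁻¹) := by
      rw [hF2]
      apply Subtype.ext
      ext i j
      fin_cases i <;> fin_cases j <;>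
        simp [EE, FF, Matrix.mul_apply, Fin.sum_univ_two]
      · field_simp
        ring
      · field_simp
        linear_combination -hdet
      · field_simp
        ring
    rw [this]
    exact P.mul_mem (P.mul_mem (hE _) hF) (hE _)
  intro g
  by_cases hg : g.1 1 0 = 0
  · have h1 : WW K * g ∈ P := by
      apply key
      have hdet := g.2
      rw [Matrix.det_fin_two, hg, mul_zero, sub_zero] at hdet
      have : (WW K * g).1 1 0 = -g.1 0 0 := by
        simp [WW, Matrix.mul_apply, Fin.sum_univ_two]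
      rw [this]
      exact neg_ne_zero.2 (left_ne_zero_of_mul_eq_one hdet)
    exact (P.mul_mem_cancel_left hW).1 h1
  · exact key g hg

private def tf (y z : K) (h : y * z = 1) (g : SpecialLinearGroup (Fin 2) K) :
    SpecialLinearGroup (Fin 2) K :=
  ⟨!![g.1 0 0, y * g.1 0 1; z * g.1 1 0, g.1 1 1], by
    have hdet := g.2
    rw [Matrix.det_fin_two] at hdet
    rw [Matrix.det_fin_two]
    simp only [Matrix.of_apply, Matrix.cons_val', Matrix.cons_val_zero, Matrix.cons_val_one,
      Matrix.cons_val_fin_one]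
    linear_combination hdet - (g.1 0 1 * g.1 1 0) * h⟩

private lemma tf_tf (y z : K) (h : y * z = 1) (h' : z * y = 1)
    (g : SpecialLinearGroup (Fin 2) K) : tf y z h (tf z y h' g) = g := by
  apply Subtype.ext
  ext i j
  fin_cases i <;> fin_cases j <;> simp [tf, ← mul_assoc, h, h']

private lemma tf_mul (y z : K) (h : y * z = 1) (g g' : SpecialLinearGroup (Fin 2) K) :
    tf y z h (g * g') = tf y z h g * tf y z h g' := by
  apply Subtype.ext
  ext i j
  fin_cases i <;> fin_cases j <;> simp [tf, Matrix.mul_apply, Fin.sum_univ_two]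
  · linear_combination (-(g.1 0 1 * g'.1 1 0)) * h
  · ring
  · ring
  · linear_combination (-(g.1 1 0 * g'.1 0 1)) * h

/-- the diagonal automorphism -/
private def tau (x : Kˣ) : MulAut (SpecialLinearGroup (Fin 2) K) where
  toFun := tf ((x⁻¹ : Kˣ) : K) (x : K) (by simp)
  invFun := tf (x : K) ((x⁻¹ : Kˣ) : K) (by simp)
  left_inv g := tf_tf _ _ _ _ g
  right_inv g := tf_tf _ _ _ _ g
  map_mul' g g' := tf_mul _ _ _ g g'

private lemma tau_apply (x : Kˣ) (g : SpecialLinearGroup (Fin 2) K) :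
    tau x g = tf ((x⁻¹ : Kˣ) : K) (x : K) (by simp) g := rfl

private lemma tau_inv_apply (x : Kˣ) (g : SpecialLinearGroup (Fin 2) K) :
    (tau x)⁻¹ g = tf (x : K) ((x⁻¹ : Kˣ) : K) (by simp) g := rfl

private lemma tau_mul (x y : Kˣ) : tau (x * y) = tau x * tau y := by
  apply MulEquiv.ext
  intro g
  rw [MulAut.mul_apply, tau_apply, tau_apply, tau_apply]
  apply Subtype.ext
  ext i j
  fin_cases i <;> fin_cases j <;> simp [tf]
  · ring
  · ring

private lemma tau_one : tau (1 : Kˣ) = 1 := by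
  apply MulEquiv.ext
  intro g
  rw [MulAut.one_apply, tau_apply]
  apply Subtype.ext
  ext i j
  fin_cases i <;> fin_cases j <;> simp [tf]

private lemma tau_pow (x : Kˣ) (n : ℕ) : tau (x ^ n) = tau x ^ n := by
  induction n with
  | zero => rw [pow_zero, pow_zero, tau_one]
  | succ n ih => rw [pow_succ, pow_succ, tau_mul, ih]

private lemma aut_conj (φ : MulAut (SpecialLinearGroup (Fin 2) K))
    (g : SpecialLinearGroup (Fin 2) K) : φ * MulAut.conj g * φ⁻¹ = MulAut.conj (φ g) := by
  apply MulEquiv.ext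
  intro h
  rw [MulAut.mul_apply, MulAut.mul_apply, MulAut.conj_apply, MulAut.conj_apply, map_mul, map_mul,
    map_inv, MulAut.apply_inv_self]

private lemma tau_inv_E (x : Kˣ) (y : K) : (tau x)⁻¹ (EE y) = EE ((x : K) * y) := by
  rw [tau_inv_apply]
  apply Subtype.ext
  ext i j
  fin_cases i <;> fin_cases j <;> simp [tf, EE]

private lemma cj_eq (x : Kˣ) (n : ℕ) :
    cj (MulAut.conj (EE (1 : K))) (tau x) (n : ℤ) = MulAut.conj (EE ((x : K) ^ n)) := by
  unfold cj
  rw [zpow_neg, zpow_natCast]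
  induction n with
  | zero => simp
  | succ n ih =>
    have e1 : ((tau x) ^ (n + 1))⁻¹ * MulAut.conj (EE (1 : K)) * (tau x) ^ (n + 1) =
        (tau x)⁻¹ * (((tau x) ^ n)⁻¹ * MulAut.conj (EE (1 : K)) * (tau x) ^ n) * (tau x)⁻¹⁻¹ := by
      rw [pow_succ]; group
    rw [e1, ih, aut_conj, tau_inv_E, pow_succ']

private lemma W_tau (x : Kˣ) :
    (MulAut.conj (WW K))⁻¹ * tau x * MulAut.conj (WW K) = (tau x)⁻¹ := by
  rw [mul_assoc, inv_mul_eq_iff_eq_mul]
  apply MulEquiv.ext
  intro g
  rw [MulAut.mul_apply, MulAut.mul_apply, MulAut.conj_apply, MulAut.conj_apply, map_mul, map_mul,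
    map_inv, tau_inv_apply, tau_apply, tau_apply, mul_inv_eq_iff_eq_mul, mul_assoc, mul_assoc]
  have e1 : (WW K)⁻¹ * tf ((x⁻¹ : Kˣ) : K) (x : K) (by simp) (WW K) =
      ⟨!![(x : K), 0; 0, ((x⁻¹ : Kˣ) : K)], by rw [Matrix.det_fin_two]; simp⟩ := by
    rw [inv_mul_eq_iff_eq_mul]
    apply Subtype.ext
    ext i j
    fin_cases i <;> fin_cases j <;> simp [tf, WW, Matrix.mul_apply, Fin.sum_univ_two]
  rw [e1]
  apply Subtype.ext
  ext i j
  fin_cases i <;> fin_cases j <;>
    simp [tf, WW, Matrix.mul_apply, Fin.sum_univ_two] <;> field_simp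

private lemma tau_comm (x y : Kˣ) : tau x * tau y = tau y * tau x := by
  rw [← tau_mul, ← tau_mul, mul_comm]

private lemma tau_neg_E (y : K) : tau (-1 : Kˣ) (EE y) = EE (-y) := by
  rw [tau_apply]
  apply Subtype.ext
  ext i j
  fin_cases i <;> fin_cases j <;> simp [tf, EE]

private lemma tau_neg_W : tau (-1 : Kˣ) (WW K) = (WW K)⁻¹ := by
  rw [tau_apply, eq_inv_iff_mul_eq_one]
  apply Subtype.ext
  ext i j
  fin_cases i <;> fin_cases j <;> simp [tf, WW, Matrix.mul_apply, Fin.sum_univ_two]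

private lemma rel1 : WW K * EE (-1) * WW K = (WW K * WW K) * (EE 1 * (WW K)⁻¹ * EE 1) := by
  have h : EE (1 : K) * (WW K)⁻¹ * EE 1 = FF 1 := by
    have h1 : EE (1 : K) * (WW K)⁻¹ = ⟨!![1, -1; 1, 0], by simp [Matrix.det_fin_two]⟩ := by
      rw [mul_inv_eq_iff_eq_mul]
      apply Subtype.ext
      ext i j
      fin_cases i <;> fin_cases j <;> simp [EE, WW, Matrix.mul_apply, Fin.sum_univ_two]
    rw [h1]
    apply Subtype.ext
    ext i j
    fin_cases i <;> fin_cases j <;> simp [EE, FF, Matrix.mul_apply, Fin.sum_univ_two]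
  rw [h]
  apply Subtype.ext
  ext i j
  fin_cases i <;> fin_cases j <;> simp [EE, FF, WW, Matrix.mul_apply, Fin.sum_univ_two]

end SL

private lemma core {K : Type} [Field K] (l k h : ℕ) (x : Kˣ) (hxh : (x : K) ^ h = -1)
    (hlk : (x : K) ^ l + (x : K) ^ k = 1) (hgn : Gn (x : K)) :
    ∃ (T : Type) (_ : Group T) (a w t : T), Rel3 l k h a w t ∧
      ∀ (G : Type) [Group G] (f : G →* T) (ga gw gt : G), f ga = a → f gw = w → f gt = t →
        Subgroup.closure {ga, gw, gt} = (⊤ : Subgroup G) →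
        ∃ Lc : Subgroup G, Lc.Normal ∧
          ∃ f' : Lc →* Matrix.ProjectiveSpecialLinearGroup (Fin 2) K,
            Function.Surjective f' := by
  obtain ⟨c, hc⟩ : ∃ c : SpecialLinearGroup (Fin 2) K →* MulAut (SpecialLinearGroup (Fin 2) K),
    c = MulAut.conj := ⟨_, rfl⟩
  obtain ⟨s, hs⟩ : ∃ s : MulAut (SpecialLinearGroup (Fin 2) K), s = tau (-1 : Kˣ) := ⟨_, rfl⟩
  obtain ⟨t, ht⟩ : ∃ t : MulAut (SpecialLinearGroup (Fin 2) K), t = tau x := ⟨_, rfl⟩
  obtain ⟨A, hA⟩ : ∃ A, A = c (EE 1) := ⟨_, rfl⟩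
  obtain ⟨W, hW⟩ : ∃ W, W = c (WW K) := ⟨_, rfl⟩
  have hss : s * s = 1 := by
    rw [hs, ← tau_mul]
    rw [show (-1 : Kˣ) * (-1) = 1 by simp, tau_one]
  have hsi : s⁻¹ = s := inv_eq_of_mul_eq_one_left hss
  have hsc : ∀ g, s * c g * s⁻¹ = c (s g) := by
    intro g
    rw [hc]
    exact aut_conj s g
  have hts : t * s = s * t := by
    rw [ht, hs]
    exact tau_comm _ _
  have hth : t ^ h = s := by
    rw [ht, hs, ← tau_pow]
    congr 1
    apply Units.ext
    rw [Units.val_pow_eq_pow_val, hxh]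
    simp
  have hsE : ∀ y, s (EE y) = EE (-y) := by
    intro y
    rw [hs]
    exact tau_neg_E y
  have hsW : s (WW K) = (WW K)⁻¹ := by
    rw [hs]
    exact tau_neg_W
  have hcjA : ∀ n : ℕ, cj A t (n : ℤ) = c (EE ((x : K) ^ n)) := by
    intro n
    rw [hA, ht, hc]
    exact cj_eq x n
  have hcj : ∀ n : ℕ, cj (A * s) t (n : ℤ) = c (EE ((x : K) ^ n)) * s := by
    intro n
    rw [← hcjA]
    unfold cj
    have h1 : s * t ^ (n : ℤ) = t ^ (n : ℤ) * s :=
      ((show Commute t s from hts).zpow_left _).eq.symm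
    rw [mul_assoc (t ^ (-(n : ℤ))) (A * s), mul_assoc A s, h1]
    simp only [mul_assoc]
  have hWt : W⁻¹ * t * W = t⁻¹ := by
    rw [hW, ht, hc]
    exact W_tau x
  have WW1 : c (WW K * WW K) = 1 := by
    rw [hc]
    apply MulEquiv.ext
    intro g
    rw [MulAut.conj_apply, WW2, mul_inv_cancel_right]
    rfl
  have hsWs : s * W * s⁻¹ = W⁻¹ := by rw [hW, hsc, hsW, map_inv]
  have hsAs : s * A * s⁻¹ = A⁻¹ := by rw [hA, hsc, hsE, EE_neg, map_inv]
  have hAWA : A * W⁻¹ * A = W * A⁻¹ * W := by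
    have h1 : c (WW K * EE (-1) * WW K) = c (EE 1 * (WW K)⁻¹ * EE 1) := by
      rw [rel1, map_mul c (WW K * WW K), WW1, one_mul]
    rw [map_mul, map_mul, map_mul, map_mul, map_inv, EE_neg, map_inv, ← hA, ← hW] at h1
    exact h1.symm
  refine ⟨MulAut (SpecialLinearGroup (Fin 2) K), inferInstance, A * s, W * s, t,
    ⟨?_, ?_, ?_⟩, ?_⟩
  · have e1 : A * s * (W * s) * (A * s) = A * (s * W * s⁻¹) * (s * s) * A * s := by group
    have e2 : W * s * (A * s) * (W * s)⁻¹ = W * (s * A * s⁻¹) * (s * W * s⁻¹)⁻¹ * s := by group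
    rw [e1, e2, hsWs, hsAs, hss, mul_one, inv_inv, hAWA]
  · calc (W * s)⁻¹ * t * (W * s) = s⁻¹ * (W⁻¹ * t * W) * s := by group
      _ = s⁻¹ * t⁻¹ * s := by rw [hWt]
      _ = t⁻¹ := by
        have h1 : t⁻¹ * s = s * t⁻¹ := ((show Commute t s from hts).inv_left).eq
        rw [mul_assoc, h1, inv_mul_cancel_left]
  · rw [hcj, hcj, hth]
    have e1 : (x : K) ^ l = 1 + -(x : K) ^ k := by rw [← hlk]; ring
    have e2 : A * s * (c (EE ((x : K) ^ k)) * s) * s =
        A * (s * c (EE ((x : K) ^ k)) * s⁻¹) * (s * s * s) := by group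
    rw [e2, hsc, hsE, hss, one_mul, e1, EE_add, map_mul, ← hA]
  · intro G _ f ga gw gt hga hgw hgt hcl
    have htr : t ∈ f.range := ⟨gt, hgt⟩
    have hsr : s ∈ f.range := by
      rw [← hth]
      exact f.range.pow_mem htr h
    have hAr : A ∈ f.range := by
      have h1 : A * s ∈ f.range := ⟨ga, hga⟩
      exact (f.range.mul_mem_cancel_right hsr).1 h1
    have hWr : W ∈ f.range := by
      have h1 : W * s ∈ f.range := ⟨gw, hgw⟩
      exact (f.range.mul_mem_cancel_right hsr).1 h1
    have hEall : ∀ y : K, c (EE y) ∈ f.range := by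
      obtain ⟨Z, hZ⟩ : ∃ Z : AddSubgroup K, ∀ y, y ∈ Z ↔ c (EE y) ∈ f.range :=
        ⟨{ carrier := {y | c (EE y) ∈ f.range}
           zero_mem' := by
            show c (EE 0) ∈ f.range
            rw [EE_zero, map_one]
            exact f.range.one_mem
           add_mem' := by
            intro b d hb hd
            show c (EE (b + d)) ∈ f.range
            rw [EE_add, map_mul]
            exact f.range.mul_mem hb hd
           neg_mem' := by
            intro b hb
            show c (EE (-b)) ∈ f.range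
            rw [EE_neg, map_inv]
            exact f.range.inv_mem hb }, fun y => Iff.rfl⟩
      intro y
      refine (hZ y).1 (hgn Z ((hZ 1).2 ?_) ?_ y)
      · rw [← hA]
        exact hAr
      · intro y hy
        refine (hZ _).2 ?_
        have h1 := (hZ y).1 hy
        have h2 : c (EE ((x : K) * y)) = t⁻¹ * c (EE y) * t⁻¹⁻¹ := by
          rw [hc, ht, aut_conj, tau_inv_E]
        rw [h2]
        exact f.range.mul_mem (f.range.mul_mem (f.range.inv_mem htr) h1)
          (f.range.inv_mem (f.range.inv_mem htr))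
    have hPtop : f.range.comap c = ⊤ := gen _ hEall (by
      show c (WW K) ∈ f.range
      rw [← hW]
      exact hWr)
    have hcr : ∀ g, c g ∈ f.range := by
      intro g
      have : g ∈ f.range.comap c := by rw [hPtop]; trivial
      exact this
    refine ⟨c.range.comap f, ⟨?_⟩, ?_⟩
    · rintro n ⟨g, hg⟩ y
      show f (y * n * y⁻¹) ∈ c.range
      refine ⟨f y g, ?_⟩
      rw [map_mul, map_mul, map_inv, ← hg, hc, aut_conj]
    · have hker : c.ker ≤ (Subgroup.center (SpecialLinearGroup (Fin 2) K)).comap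
          (MonoidHom.id _) := by
        intro g hg
        show g ∈ Subgroup.center _
        rw [Subgroup.mem_center_iff]
        intro h
        have h1 : c g h = h := by
          rw [MonoidHom.mem_ker] at hg
          rw [hg]
          rfl
        rw [hc, MulAut.conj_apply, mul_inv_eq_iff_eq_mul] at h1
        exact h1.symm
      obtain ⟨e, he⟩ : ∃ e : (SpecialLinearGroup (Fin 2) K) ⧸ c.ker ≃* c.range,
          ∀ g, e (QuotientGroup.mk g) = ⟨c g, ⟨g, rfl⟩⟩ :=
        ⟨QuotientGroup.quotientKerEquivRange c, fun g => rfl⟩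
      refine ⟨(QuotientGroup.map c.ker (Subgroup.center (SpecialLinearGroup (Fin 2) K))
        (MonoidHom.id _) hker).comp (e.symm.toMonoidHom.comp (f.subgroupComap c.range)), ?_⟩
      intro z
      obtain ⟨g, rfl⟩ := QuotientGroup.mk'_surjective _ z
      obtain ⟨y, hy⟩ := hcr g
      have hyN : f y ∈ c.range := by rw [hy]; exact ⟨g, rfl⟩
      refine ⟨⟨y, hyN⟩, ?_⟩
      have h3 : (f.subgroupComap c.range) ⟨y, hyN⟩ = e (QuotientGroup.mk g) := by
        rw [he]
        exact Subtype.ext hy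
      show QuotientGroup.map c.ker _ (MonoidHom.id _) hker
        (e.symm ((f.subgroupComap c.range) ⟨y, hyN⟩)) = _
      rw [h3, MulEquiv.symm_apply_apply]
      rfl

theorem hTG : Pool.Agent.Helper50.BP.StTG := by
  intro p _ n l k h hD
  obtain ⟨x, hx1, hx2, hx3⟩ := hD
  exact core l k h x hx1 hx2 hx3

end Pool.Agent.Helper33.BP
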